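import Mathlib

/-!
# MP_f18e63_co: Menger duals of Mengerian set systems

The set system with the blocks `{0,1}, {1,2}, {3,4}, {5,6}, {1,3,6}, {1,4,5}, {2,3,5}, {0,4,6}` on
seven points is Mengerian and has no minor `𝒬`, but its Menger dual does not have the Menger
property.
-/

namespace Pool.Agent.Results.MP_f18e63_co.SevenPoints

open Finset

section Defs

variable {α : Type} [Fintype α] [DecidableEq α]

/-- The inclusion-minimal blocks. -/
def mins (F : Finset (Finset α)) : Finset (Finset α) :=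
  {B ∈ F | ∀ B' ∈ F, B' ⊆ B → B' = B}

/-- `C` meets every inclusion-minimal block. -/
def Meets (F : Finset (Finset α)) (C : Finset α) : Prop :=
  ∀ B ∈ mins F, (C ∩ B).Nonempty

instance (F : Finset (Finset α)) (C : Finset α) : Decidable (Meets F C) := by
  unfold Meets; infer_instance

/-- The Menger dual: the inclusion-minimal sets that meet every minimal block. -/
def dual (F : Finset (Finset α)) : Finset (Finset α) :=
  {C | Meets F C ∧ ∀ C' ∈ C.powerset, Meets F C' → C' = C}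

/-- The Menger property. -/
def HasMenger (F : Finset (Finset α)) : Prop :=
  mins F = {∅} ∨ mins F = ∅ ∨ ∃ k : ℕ,
    IsGreatest {m | ∃ P ⊆ mins F, (∀ B ∈ P, ∀ B' ∈ P, B ≠ B' → Disjoint B B') ∧ P.card = m} k ∧
    IsLeast {m | ∃ C ∈ dual F, C.card = m} k

/-- Mengerian set systems. -/
def Mengerian (F : Finset (Finset α)) : Prop :=
  ∅ ∈ F ∨ ∀ c : α → ℕ, ∃ f : Finset α → ℕ,
    (∀ x, ∑ B ∈ F with x ∈ B, f B ≤ c x) ∧
    IsLeast {m | ∃ C ∈ dual F, ∑ x ∈ C, c x = m} (∑ B ∈ F, f B)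

/-- Weak point-restriction (the points of `S` are removed from all blocks). -/
def weak (F : Finset (Finset α)) (S : Finset α) : Finset (Finset α) := F.image (· \ S)

/-- Strong point-restriction (the blocks that meet `S` are removed). -/
def strong (F : Finset (Finset α)) (S : Finset α) : Finset (Finset α) := {B ∈ F | Disjoint B S}

/-- The minors of `F`. -/
inductive IsMinor (F : Finset (Finset α)) : Finset (Finset α) → Prop
  | refl : IsMinor F F
  | weak {G : Finset (Finset α)} (S : Finset α) : IsMinor F G → IsMinor F (weak G S)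
  | strong {G : Finset (Finset α)} (S : Finset α) : IsMinor F G → IsMinor F (strong G S)

/-- The set system `𝒬 = (abc, cde, bdf, aef, cf, be, ad)` with `a, …, f` written `0, …, 5`. -/
def Q : Finset (Finset (Fin 6)) :=
  {{0, 1, 2}, {2, 3, 4}, {1, 3, 5}, {0, 4, 5}, {2, 5}, {1, 4}, {0, 3}}

/-- `F` contains `𝒬` as a minor. -/
def HasQMinor (F : Finset (Finset α)) : Prop :=
  ∃ G, IsMinor F G ∧ ∃ ρ : Fin 6 ↪ α, mins G = Q.image (fun B => B.map ρ)

end Defs

/-- The statement of Q1. -/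
def Conjecture : Prop :=
  ∀ (α : Type) [Fintype α] [DecidableEq α] (F : Finset (Finset α)),
    Mengerian F → ¬ HasQMinor F → HasMenger (dual F)

/-- The example. -/
def ex : Finset (Finset (Fin 7)) :=
  {{0, 1}, {1, 2}, {3, 4}, {5, 6}, {1, 3, 6}, {1, 4, 5}, {2, 3, 5}, {0, 4, 6}}

theorem mins_ex : mins ex = ex := by decide +kernel

theorem meets_mono {α : Type} [Fintype α] [DecidableEq α] {F : Finset (Finset α)}
    {C D : Finset α} (h : C ⊆ D) (hC : Meets F C) : Meets F D :=
  fun B hB => (hC B hB).mono (inter_subset_inter_right h)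

theorem mem_dual {α : Type} [Fintype α] [DecidableEq α] {F : Finset (Finset α)}
    {C : Finset α} : C ∈ dual F ↔ Meets F C ∧ ∀ x ∈ C, ¬ Meets F (C.erase x) := by
  simp only [dual, mem_filter, mem_univ, true_and, mem_powerset]
  refine and_congr_right fun _ => ⟨fun h x hx hm => ?_, fun h C' hC' hm => ?_⟩
  · have := h _ (erase_subset x C) hm
    rw [← this] at hx
    exact absurd hx (by simp)
  · by_contra hne
    obtain ⟨x, hx, hx'⟩ := exists_of_ssubset (Finset.ssubset_iff_subset_ne.2 ⟨hC', hne⟩)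
    refine h x hx (meets_mono (fun y hy => ?_) hm)
    exact mem_erase.2 ⟨fun h => hx' (h ▸ hy), hC' hy⟩

theorem dual_ex : dual ex =
    {{1, 3, 6}, {1, 4, 5}, {0, 1, 3, 5}, {1, 2, 4, 6}, {0, 2, 3, 5}, {0, 2, 4, 6}} := by
  ext C
  rw [mem_dual]
  simp only [Meets, mins_ex]
  revert C
  decide +kernel

/-- The inductive step. -/
theorem step (p q r u v w z N : ℕ) (hN : 1 ≤ N) (h1 : N ≤ q + u + z) (h2 : N ≤ q + v + w)
    (h3 : N ≤ p + q + u + w) (h4 : N ≤ q + r + v + z) (h5 : N ≤ p + r + u + w)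
    (h6 : N ≤ p + r + v + z) :
    (1 ≤ u ∧ 1 ≤ v) ∨ (1 ≤ w ∧ 1 ≤ z) ∨ (1 ≤ p ∧ 1 ≤ q ∧ N + 1 ≤ p + q + u + w) ∨
    (1 ≤ q ∧ 1 ≤ r ∧ N + 1 ≤ q + r + v + z) ∨
    (1 ≤ q ∧ 1 ≤ u ∧ 1 ≤ z ∧ N + 2 ≤ q + u + z ∧ N + 1 ≤ p + q + u + w ∧
      N + 1 ≤ q + r + v + z) ∨
    (1 ≤ q ∧ 1 ≤ v ∧ 1 ≤ w ∧ N + 2 ≤ q + v + w ∧ N + 1 ≤ p + q + u + w ∧
      N + 1 ≤ q + r + v + z) ∨
    (1 ≤ r ∧ 1 ≤ u ∧ 1 ≤ w ∧ N + 1 ≤ p + q + u + w ∧ N + 2 ≤ p + r + u + w) ∨
    (1 ≤ p ∧ 1 ≤ v ∧ 1 ≤ z ∧ N + 1 ≤ q + r + v + z ∧ N + 2 ≤ p + r + v + z) := by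
  by_cases hu : 1 ≤ u <;> by_cases hv : 1 ≤ v <;> by_cases hw : 1 ≤ w <;> by_cases hz : 1 ≤ z <;>
    by_cases hp : 1 ≤ p <;> by_cases hq : 1 ≤ q <;> by_cases hr : 1 ≤ r <;>
    first
    | exact Or.inl ⟨hu, hv⟩
    | exact Or.inr (Or.inl ⟨hw, hz⟩)
    | exact Or.inr (Or.inr (Or.inl ⟨hp, hq, by omega⟩))
    | exact Or.inr (Or.inr (Or.inr (Or.inl ⟨hq, hr, by omega⟩)))
    | exact Or.inr (Or.inr (Or.inr (Or.inr (Or.inl ⟨hq, hu, hz, by omega, by omega, by omega⟩))))
    | exact Or.inr (Or.inr (Or.inr (Or.inr (Or.inr (Or.inl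
        ⟨hq, hv, hw, by omega, by omega, by omega⟩)))))
    | exact Or.inr (Or.inr (Or.inr (Or.inr (Or.inr (Or.inr (Or.inl
        ⟨hr, hu, hw, by omega, by omega⟩))))))
    | exact Or.inr (Or.inr (Or.inr (Or.inr (Or.inr (Or.inr (Or.inr
        ⟨hp, hv, hz, by omega, by omega⟩))))))
    | (exfalso; omega)

/-- Packing `N` blocks into the weights. -/
theorem pack (N : ℕ) : ∀ p q r u v w z : ℕ, N ≤ q + u + z → N ≤ q + v + w →
    N ≤ p + q + u + w → N ≤ q + r + v + z → N ≤ p + r + u + w → N ≤ p + r + v + z →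
    ∃ a b c d e f g h : ℕ, a + h ≤ p ∧ a + b + e + f ≤ q ∧ b + g ≤ r ∧ c + e + g ≤ u ∧
      c + f + h ≤ v ∧ d + f + g ≤ w ∧ d + e + h ≤ z ∧ a + b + c + d + e + f + g + h = N := by
  induction N with
  | zero =>
    intro p q r u v w z _ _ _ _ _ _
    exact ⟨0, 0, 0, 0, 0, 0, 0, 0, by omega, by omega, by omega, by omega, by omega, by omega,
      by omega, by omega⟩
  | succ N ih =>
    intro p q r u v w z h1 h2 h3 h4 h5 h6
    rcases step p q r u v w z (N + 1) (by omega) h1 h2 h3 h4 h5 h6 with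
      h | h | h | h | h | h | h | h
    · obtain ⟨a, b, c, d, e, f, g, h', k1, k2, k3, k4, k5, k6, k7, k8⟩ :=
        ih p q r (u - 1) (v - 1) w z (by omega) (by omega) (by omega) (by omega) (by omega)
          (by omega)
      exact ⟨a, b, c + 1, d, e, f, g, h', by omega, by omega, by omega, by omega, by omega,
        by omega, by omega, by omega⟩
    · obtain ⟨a, b, c, d, e, f, g, h', k1, k2, k3, k4, k5, k6, k7, k8⟩ :=
        ih p q r u v (w - 1) (z - 1) (by omega) (by omega) (by omega) (by omega) (by omega)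
          (by omega)
      exact ⟨a, b, c, d + 1, e, f, g, h', by omega, by omega, by omega, by omega, by omega,
        by omega, by omega, by omega⟩
    · obtain ⟨a, b, c, d, e, f, g, h', k1, k2, k3, k4, k5, k6, k7, k8⟩ :=
        ih (p - 1) (q - 1) r u v w z (by omega) (by omega) (by omega) (by omega) (by omega)
          (by omega)
      exact ⟨a + 1, b, c, d, e, f, g, h', by omega, by omega, by omega, by omega, by omega,
        by omega, by omega, by omega⟩
    · obtain ⟨a, b, c, d, e, f, g, h', k1, k2, k3, k4, k5, k6, k7, k8⟩ :=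
        ih p (q - 1) (r - 1) u v w z (by omega) (by omega) (by omega) (by omega) (by omega)
          (by omega)
      exact ⟨a, b + 1, c, d, e, f, g, h', by omega, by omega, by omega, by omega, by omega,
        by omega, by omega, by omega⟩
    · obtain ⟨a, b, c, d, e, f, g, h', k1, k2, k3, k4, k5, k6, k7, k8⟩ :=
        ih p (q - 1) r (u - 1) v w (z - 1) (by omega) (by omega) (by omega) (by omega)
          (by omega) (by omega)
      exact ⟨a, b, c, d, e + 1, f, g, h', by omega, by omega, by omega, by omega, by omega,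
        by omega, by omega, by omega⟩
    · obtain ⟨a, b, c, d, e, f, g, h', k1, k2, k3, k4, k5, k6, k7, k8⟩ :=
        ih p (q - 1) r u (v - 1) (w - 1) z (by omega) (by omega) (by omega) (by omega)
          (by omega) (by omega)
      exact ⟨a, b, c, d, e, f + 1, g, h', by omega, by omega, by omega, by omega, by omega,
        by omega, by omega, by omega⟩
    · obtain ⟨a, b, c, d, e, f, g, h', k1, k2, k3, k4, k5, k6, k7, k8⟩ :=
        ih p q (r - 1) (u - 1) v (w - 1) z (by omega) (by omega) (by omega) (by omega)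
          (by omega) (by omega)
      exact ⟨a, b, c, d, e, f, g + 1, h', by omega, by omega, by omega, by omega, by omega,
        by omega, by omega, by omega⟩
    · obtain ⟨a, b, c, d, e, f, g, h', k1, k2, k3, k4, k5, k6, k7, k8⟩ :=
        ih (p - 1) q r u (v - 1) w (z - 1) (by omega) (by omega) (by omega) (by omega)
          (by omega) (by omega)
      exact ⟨a, b, c, d, e, f, g, h' + 1, by omega, by omega, by omega, by omega, by omega,
        by omega, by omega, by omega⟩

/-- The weights of the blocks. -/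
def fw (a b c d e f g h : ℕ) (B : Finset (Fin 7)) : ℕ :=
  if B = {0, 1} then a else if B = {1, 2} then b else if B = {3, 4} then c else
  if B = {5, 6} then d else if B = {1, 3, 6} then e else if B = {1, 4, 5} then f else
  if B = {2, 3, 5} then g else h

theorem fw_vals (a b c d e f g h : ℕ) :
    fw a b c d e f g h {0, 1} = a ∧ fw a b c d e f g h {1, 2} = b ∧
    fw a b c d e f g h {3, 4} = c ∧ fw a b c d e f g h {5, 6} = d ∧
    fw a b c d e f g h {1, 3, 6} = e ∧ fw a b c d e f g h {1, 4, 5} = f ∧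
    fw a b c d e f g h {2, 3, 5} = g ∧ fw a b c d e f g h {0, 4, 6} = h := by
  refine ⟨?_, ?_, ?_, ?_, ?_, ?_, ?_, ?_⟩ <;>
    simp only [fw] <;> simp +decide

theorem sum_ex (F : Finset (Fin 7) → ℕ) : ∑ B ∈ ex, F B =
    F {0, 1} + F {1, 2} + F {3, 4} + F {5, 6} + F {1, 3, 6} + F {1, 4, 5} + F {2, 3, 5} +
      F {0, 4, 6} := by
  rw [ex, sum_insert (by decide), sum_insert (by decide), sum_insert (by decide),
    sum_insert (by decide), sum_insert (by decide), sum_insert (by decide),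
    sum_insert (by decide), sum_singleton]
  ring

theorem mengerian_ex : Mengerian ex := by
  right
  intro c
  obtain ⟨C0, hC0, hmin⟩ := exists_min_image (dual ex) (fun C => ∑ x ∈ C, c x)
    (by rw [dual_ex]; decide)
  have hle : ∀ C ∈ dual ex, ∑ x ∈ C0, c x ≤ ∑ x ∈ C, c x := hmin
  have h1 := hle {1, 3, 6} (by rw [dual_ex]; decide)
  have h2 := hle {1, 4, 5} (by rw [dual_ex]; decide)
  have h3 := hle {0, 1, 3, 5} (by rw [dual_ex]; decide)
  have h4 := hle {1, 2, 4, 6} (by rw [dual_ex]; decide)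
  have h5 := hle {0, 2, 3, 5} (by rw [dual_ex]; decide)
  have h6 := hle {0, 2, 4, 6} (by rw [dual_ex]; decide)
  generalize hN : ∑ x ∈ C0, c x = N at *
  have e1 : ∑ x ∈ ({1, 3, 6} : Finset (Fin 7)), c x = c 1 + c 3 + c 6 := by
    rw [sum_insert (by decide), sum_insert (by decide), sum_singleton]; ring
  have e2 : ∑ x ∈ ({1, 4, 5} : Finset (Fin 7)), c x = c 1 + c 4 + c 5 := by
    rw [sum_insert (by decide), sum_insert (by decide), sum_singleton]; ring
  have e3 : ∑ x ∈ ({0, 1, 3, 5} : Finset (Fin 7)), c x = c 0 + c 1 + c 3 + c 5 := by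
    rw [sum_insert (by decide), sum_insert (by decide), sum_insert (by decide),
      sum_singleton]; ring
  have e4 : ∑ x ∈ ({1, 2, 4, 6} : Finset (Fin 7)), c x = c 1 + c 2 + c 4 + c 6 := by
    rw [sum_insert (by decide), sum_insert (by decide), sum_insert (by decide),
      sum_singleton]; ring
  have e5 : ∑ x ∈ ({0, 2, 3, 5} : Finset (Fin 7)), c x = c 0 + c 2 + c 3 + c 5 := by
    rw [sum_insert (by decide), sum_insert (by decide), sum_insert (by decide),
      sum_singleton]; ring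
  have e6 : ∑ x ∈ ({0, 2, 4, 6} : Finset (Fin 7)), c x = c 0 + c 2 + c 4 + c 6 := by
    rw [sum_insert (by decide), sum_insert (by decide), sum_insert (by decide),
      sum_singleton]; ring
  rw [e1] at h1
  rw [e2] at h2
  rw [e3] at h3
  rw [e4] at h4
  rw [e5] at h5
  rw [e6] at h6
  obtain ⟨a, b, c', d, e, f, g, h, k1, k2, k3, k4, k5, k6, k7, k8⟩ :=
    pack N (c 0) (c 1) (c 2) (c 3) (c 4) (c 5) (c 6) h1 h2 h3 h4 h5 h6
  obtain ⟨v1, v2, v3, v4, v5, v6, v7, v8⟩ := fw_vals a b c' d e f g h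
  refine ⟨fw a b c' d e f g h, ?_, ⟨⟨C0, hC0, ?_⟩, ?_⟩⟩
  · intro x
    rw [sum_filter, sum_ex, v1, v2, v3, v4, v5, v6, v7, v8]
    fin_cases x <;> simp +decide <;> omega
  · rw [hN, sum_ex, v1, v2, v3, v4, v5, v6, v7, v8]
    omega
  · rintro m ⟨C, hC, rfl⟩
    rw [sum_ex, v1, v2, v3, v4, v5, v6, v7, v8, k8]
    exact hle C hC

/-! ### No `𝒬`-minor -/

/-- Remove the blocks meeting `D`, and then the points of `C`. -/
def norm {α : Type} [DecidableEq α] (F : Finset (Finset α)) (C D : Finset α) :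
    Finset (Finset α) :=
  (F.filter (Disjoint · D)).image (· \ C)

theorem minor_norm {α : Type} [Fintype α] [DecidableEq α] {F G : Finset (Finset α)}
    (h : IsMinor F G) : ∃ C D, G = norm F C D := by
  induction h with
  | refl => exact ⟨∅, ∅, by simp [norm]⟩
  | weak S _ ih =>
    obtain ⟨C, D, rfl⟩ := ih
    refine ⟨C ∪ S, D, ?_⟩
    ext B
    simp only [weak, norm, mem_image, mem_filter]
    constructor
    · rintro ⟨_, ⟨A, hA, rfl⟩, rfl⟩
      exact ⟨A, hA, by rw [sdiff_union_distrib, sdiff_sdiff_left, sup_eq_union,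
        sdiff_union_distrib]⟩
    · rintro ⟨A, hA, rfl⟩
      exact ⟨A \ C, ⟨A, hA, rfl⟩, by rw [sdiff_sdiff_left, sup_eq_union]⟩
  | strong S _ ih =>
    obtain ⟨C, D, rfl⟩ := ih
    refine ⟨C, D ∪ (S \ C), ?_⟩
    ext B
    simp only [strong, norm, mem_image, mem_filter]
    have key : ∀ A : Finset α, Disjoint (A \ C) S ↔ Disjoint A (S \ C) := by
      intro A
      simp only [disjoint_left, mem_sdiff]
      tauto
    constructor
    · rintro ⟨⟨A, hA, rfl⟩, hS⟩
      exact ⟨A, ⟨hA.1, disjoint_union_right.2 ⟨hA.2, (key A).1 hS⟩⟩, rfl⟩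
    · rintro ⟨A, hA, rfl⟩
      exact ⟨⟨A, ⟨hA.1, (disjoint_union_right.1 hA.2).1⟩, rfl⟩,
        (key A).2 (disjoint_union_right.1 hA.2).2⟩

theorem check : ∀ x : Fin 7, ∀ C ∈ ({x} : Finset (Fin 7)).powerset,
    ∀ D ∈ ({x} : Finset (Fin 7)).powerset, (mins (norm ex C D)).card ≠ 7 ∨
      (∃ B ∈ mins (norm ex C D), B.card < 2) ∨ ((mins (norm ex C D)).biUnion id).card ≠ 6 := by
  decide +kernel

theorem no_Q : ¬ HasQMinor ex := by
  rintro ⟨G, hG, ρ, hρ⟩
  obtain ⟨C, D, rfl⟩ := minor_norm hG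
  have hU : ((mins (norm ex C D)).biUnion id).card = 6 := by
    have : (mins (norm ex C D)).biUnion id = univ.map ρ := by
      rw [hρ, image_biUnion]
      ext x
      simp only [mem_biUnion, id, mem_map]
      constructor
      · rintro ⟨B, _, y, _, rfl⟩
        exact ⟨y, mem_univ _, rfl⟩
      · rintro ⟨y, _, rfl⟩
        obtain ⟨B, hB, hy⟩ : ∃ B ∈ Q, y ∈ B := by
          revert y; decide
        exact ⟨B, hB, y, hy, rfl⟩
    rw [this, card_map, card_univ, Fintype.card_fin]
  have hcard : (mins (norm ex C D)).card = 7 := by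
    rw [hρ, card_image_of_injective _ (map_injective ρ)]
    decide
  have hsz : ∀ B ∈ mins (norm ex C D), 2 ≤ B.card := by
    intro B hB
    rw [hρ, mem_image] at hB
    obtain ⟨A, hA, rfl⟩ := hB
    rw [card_map]
    revert A
    decide
  have hsub : (mins (norm ex C D)).biUnion id ⊆ univ \ (C ∪ D) := by
    intro x hx
    rw [mem_biUnion] at hx
    obtain ⟨B, hB, hx⟩ := hx
    have hB' := (mem_filter.1 hB).1
    rw [norm, mem_image] at hB'
    obtain ⟨A, hA, rfl⟩ := hB'
    have hx' := mem_sdiff.1 hx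
    rw [mem_sdiff, mem_union]
    refine ⟨mem_univ _, ?_⟩
    rintro (h | h)
    · exact hx'.2 h
    · exact disjoint_left.1 (mem_filter.1 hA).2 hx'.1 h
  have hCD : (C ∪ D).card ≤ 1 := by
    have h1 := card_le_card hsub
    rw [hU, card_sdiff_of_subset (subset_univ _), card_univ, Fintype.card_fin] at h1
    omega
  obtain ⟨x, hx⟩ : ∃ x, C ∪ D ⊆ {x} := by
    rcases Nat.eq_zero_or_pos (C ∪ D).card with h0 | h0
    · exact ⟨0, by rw [card_eq_zero.1 h0]; exact empty_subset _⟩
    · obtain ⟨x, hx⟩ := card_eq_one.1 (le_antisymm hCD h0)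
      exact ⟨x, hx.subset⟩
  rcases check x C (mem_powerset.2 (subset_union_left.trans hx)) D
    (mem_powerset.2 (subset_union_right.trans hx)) with h | ⟨B, hB, h⟩ | h
  · exact h hcard
  · exact absurd (hsz B hB) (by omega)
  · exact h hU

/-! ### The dual does not have the Menger property -/

theorem mins_dual_ex : mins (dual ex) = dual ex := by
  rw [dual_ex]
  decide +kernel

theorem not_menger : ¬ HasMenger (dual ex) := by
  rintro (h | h | ⟨k, ⟨⟨P, hP, hdis, hk⟩, -⟩, ⟨C, hC, hCk⟩, -⟩)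
  · rw [mins_dual_ex, dual_ex] at h
    revert h
    decide
  · rw [mins_dual_ex, dual_ex] at h
    revert h
    decide
  · have hk1 : k ≤ 1 := by
      by_contra hlt
      push Not at hlt
      rw [← hk] at hlt
      obtain ⟨A, hA, B, hB, hAB⟩ := one_lt_card.1 hlt
      have h1 := hP hA
      have h2 := hP hB
      rw [mins_dual_ex] at h1 h2
      have key : ∀ A ∈ dual ex, ∀ B ∈ dual ex, ¬ Disjoint A B := by
        rw [dual_ex]
        decide +kernel
      exact key A h1 B h2 (hdis A hA B hB hAB)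
    have hm := (mem_dual.1 hC).1
    have key : ∀ C : Finset (Fin 7), C.card ≤ 1 → ¬ (∀ B ∈ dual ex, (C ∩ B).Nonempty) := by
      rw [dual_ex]
      decide +kernel
    refine key C (by omega) ?_
    intro B hB
    exact hm B (by rw [mins_dual_ex]; exact hB)

/-- **Main result.** -/
theorem result : (∃ F : Finset (Finset (Fin 7)), Mengerian F ∧ ¬ HasQMinor F ∧
    ¬ HasMenger (dual F)) ∧ ¬ Conjecture :=
  ⟨⟨ex, mengerian_ex, no_Q, not_menger⟩, fun h => not_menger (h (Fin 7) ex mengerian_ex no_Q)⟩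

end Pool.Agent.Results.MP_f18e63_co.SevenPoints
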